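import Mathlib

namespace Pool.Agent.Results.MP_431f4e_gt.DiscLower
open Set Metric Complex

instance : CompactSpace (closedBall (0 : ℂ) 1) :=
  isCompact_iff_compactSpace.mp (isCompact_closedBall 0 1)
instance : Nonempty (closedBall (0 : ℂ) 1) := ⟨⟨0, by simp⟩⟩
instance : CompactSpace (sphere (0 : ℂ) 1) :=
  isCompact_iff_compactSpace.mp (isCompact_sphere 0 1)
instance : Nonempty (sphere (0 : ℂ) 1) := ⟨⟨1, by simp⟩⟩

lemma three (p1 p2 q1 q2 r1 r2 : ℝ) (hp : p1 ^ 2 + p2 ^ 2 = 1) (hq : q1 ^ 2 + q2 ^ 2 = 1)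
    (hr : r1 ^ 2 + r2 ^ 2 = 1) (p0 : 0 < p1) (q0 : 0 < q1) (r0 : 0 < r1) (h1 : q2 ≤ p2)
    (h2 : 0 ≤ q2) (h3 : r2 ≤ 0) (a : p1 * q1 + p2 * q2 ≤ 0.7565) (b : q1 * r1 + q2 * r2 ≤ 0.7565)
    (c : 0.15 ≤ p1 * r1 + p2 * r2) : False := by
  have h4 : p1 ≤ q1 := by nlinarith
  have s1 : 0 ≤ q1 * p2 - q2 * p1 := by nlinarith
  have s2 : 0 ≤ r1 * q2 - r2 * q1 := by nlinarith
  have c1 : 0 ≤ p1 * q1 + p2 * q2 := by nlinarith
  have e : p1 * r1 + p2 * r2 = (p1 * q1 + p2 * q2) * (q1 * r1 + q2 * r2) -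
      (q1 * p2 - q2 * p1) * (r1 * q2 - r2 * q1) := by
    linear_combination (-(p1 * r1 + p2 * r2)) * hq
  have e1 : (q1 * p2 - q2 * p1) ^ 2 = 1 - (p1 * q1 + p2 * q2) ^ 2 := by
    linear_combination (q1 ^ 2 + q2 ^ 2) * hp + hq
  have e2 : (r1 * q2 - r2 * q1) ^ 2 = 1 - (q1 * r1 + q2 * r2) ^ 2 := by
    linear_combination (q1 ^ 2 + q2 ^ 2) * hr + hq
  generalize p1 * q1 + p2 * q2 = C1 at *
  generalize q1 * r1 + q2 * r2 = C2 at *
  generalize q1 * p2 - q2 * p1 = S1 at *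
  generalize r1 * q2 - r2 * q1 = S2 at *
  rcases le_total C2 0 with n | n
  · nlinarith [mul_nonneg s1 s2, mul_nonneg c1 (neg_nonneg.2 n)]
  · have t1 : 0.653 ≤ S1 := by nlinarith
    have t2 : 0.653 ≤ S2 := by nlinarith
    nlinarith [mul_le_mul a b n (by norm_num), mul_le_mul t1 t2 (by norm_num) s1]

lemma dot_of (a b : ℂ) (ha : ‖a‖ = 1) (hb : ‖b‖ = 1) :
    a.re * b.re + a.im * b.im = 1 - ‖a - b‖ ^ 2 / 2 ∧ a.re ^ 2 + a.im ^ 2 = 1 := by
  have h1 := Complex.sq_norm a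
  have h2 := Complex.sq_norm b
  have h3 := Complex.sq_norm (a - b)
  rw [ha, normSq_apply] at h1
  rw [hb, normSq_apply] at h2
  rw [normSq_apply, sub_re, sub_im] at h3
  constructor <;> nlinarith

lemma comb {ι : Type*} (N : Finset ι) (l : ι → ℝ) (a : ι → ℂ) (hl : ∀ i, 0 ≤ l i)
    (ha : ∀ i, ‖a i‖ = 1) (hn : ∀ i j, 0 < l i → 0 < l j → ‖a i - a j‖ ≤ 1.302)
    (i : ι) (hi : i ∈ N) (hp : 0 < l i) :
    0 < (∑ j ∈ N, (l j : ℂ) * a j).re * (a i).re + (∑ j ∈ N, (l j : ℂ) * a j).im * (a i).im := by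
  rw [re_sum, im_sum, Finset.sum_mul, Finset.sum_mul, ← Finset.sum_add_distrib]
  have key : ∀ j, 0 < l j → 0 < ((l j : ℂ) * a j).re * (a i).re + ((l j : ℂ) * a j).im * (a i).im := by
    intro j hj
    have h1 := (dot_of (a j) (a i) (ha j) (ha i)).1
    have h2 := hn j i hj hp
    have h3 : ‖a j - a i‖ ^ 2 ≤ 1.302 ^ 2 := pow_le_pow_left₀ (norm_nonneg _) h2 2
    simp only [re_ofReal_mul, im_ofReal_mul]
    have : 0 < (a j).re * (a i).re + (a j).im * (a i).im := by linarith [show (1.302 : ℝ) ^ 2 < 2 by norm_num]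
    nlinarith
  refine Finset.sum_pos' (fun j _ => ?_) ⟨i, hi, key i hp⟩
  rcases (hl j).eq_or_lt with e | e
  · simp [← e]
  · exact (key j e).le

lemma signs {ι : Type*} (N : Finset ι) (l : ι → ℝ) (y : ι → ℝ) (hl : ∀ i, 0 ≤ l i)
    (i : ι) (hi : i ∈ N) (hp : 0 < l i) (h : ∑ j ∈ N, l j * y j = 0) :
    ∃ j ∈ N, 0 < l j ∧ 0 ≤ y j := by
  by_contra hc
  push Not at hc
  have : 0 < ∑ j ∈ N, -(l j * y j) := by
    refine Finset.sum_pos' (fun j hj => ?_) ⟨i, hi, by nlinarith [hc i hi hp]⟩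
    rcases (hl j).eq_or_lt with e | e
    · simp [← e]
    · nlinarith [hc j hj e]
  rw [Finset.sum_neg_distrib, h] at this
  simp at this

lemma final {ι : Type*} (N : Finset ι) (l m : ι → ℝ) (a : ι → ℂ) (hl : ∀ i, 0 ≤ l i)
    (hm : ∀ i, 0 ≤ m i) (ha : ∀ i, ‖a i‖ = 1)
    (hn : ∀ i j, 0 < l i → 0 < l j → ‖a i - a j‖ ≤ 1.302)
    (hn' : ∀ i j, 0 < m i → 0 < m j → ‖a i - a j‖ ≤ 1.302)
    (hf : ∀ i j, 0 < l i → 0 < m j → 0.698 ≤ ‖a i - a j‖)
    (i : ι) (hi : i ∈ N) (hp : 0 < l i) (k : ι) (hk : k ∈ N) (hq : 0 < m k)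
    (s t : ℝ) (hs : 0 < s) (ht : 0 < t) (e1 : ∑ j ∈ N, (l j : ℂ) * a j = s)
    (e2 : ∑ j ∈ N, (m j : ℂ) * a j = t) : False := by
  have rl : ∀ j ∈ N, 0 < l j → 0 < (a j).re := fun j hj h => by
    have := comb N l a hl ha hn j hj h
    rw [e1] at this
    simp only [ofReal_re, ofReal_im, zero_mul, add_zero] at this
    exact (pos_iff_pos_of_mul_pos this).1 hs
  have rm : ∀ j ∈ N, 0 < m j → 0 < (a j).re := fun j hj h => by
    have := comb N m a hm ha hn' j hj h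
    rw [e2] at this
    simp only [ofReal_re, ofReal_im, zero_mul, add_zero] at this
    exact (pos_iff_pos_of_mul_pos this).1 ht
  have i1 : ∑ j ∈ N, l j * (a j).im = 0 := by simpa [im_sum] using congrArg im e1
  have i2 : ∑ j ∈ N, m j * (a j).im = 0 := by simpa [im_sum] using congrArg im e2
  obtain ⟨A, A1, A2, A3⟩ := signs N l _ hl i hi hp i1
  obtain ⟨B, B1, B2, B3⟩ := signs N m _ hm k hk hq i2
  obtain ⟨A', A1', A2', A3'⟩ := signs N l (fun j => -(a j).im) hl i hi hp (by simpa using i1)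
  obtain ⟨B', B1', B2', B3'⟩ := signs N m (fun j => -(a j).im) hm k hk hq (by simpa using i2)
  have far : ∀ u v, 0.698 ≤ ‖a u - a v‖ → (a u).re * (a v).re + (a u).im * (a v).im ≤ 0.7565 := by
    intro u v h
    rw [(dot_of _ _ (ha u) (ha v)).1]; nlinarith
  have near : ∀ u v, ‖a u - a v‖ ≤ 1.302 → 0.15 ≤ (a u).re * (a v).re + (a u).im * (a v).im := by
    intro u v h
    rw [(dot_of _ _ (ha u) (ha v)).1]; nlinarith [norm_nonneg (a u - a v)]
  have un : ∀ u, (a u).re ^ 2 + (a u).im ^ 2 = 1 := fun u => (dot_of _ _ (ha u) (ha u)).2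
  rcases le_total (a B).im (a A).im with h | h
  · exact three _ _ _ _ _ _ (un A) (un B) (un A') (rl A A1 A2) (rm B B1 B2) (rl A' A1' A2') h B3
      (by linarith) (far _ _ (hf _ _ A2 B2)) (far _ _ (by rw [norm_sub_rev]; exact hf _ _ A2' B2))
      (near _ _ (hn _ _ A2 A2'))
  · exact three _ _ _ _ _ _ (un B) (un A) (un B') (rm B B1 B2) (rl A A1 A2) (rm B' B1' B2') h A3
      (by linarith) (far _ _ (by rw [norm_sub_rev]; exact hf _ _ A2 B2)) (far _ _ (hf _ _ A2 B2'))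
      (near _ _ (hn' _ _ B2 B2'))

lemma no_map (f : closedBall (0 : ℂ) 1 → sphere (0 : ℂ) 1)
    (hf : ∀ x y, |dist (f x) (f y) - dist x y| ≤ 1.3) : False := by
  obtain ⟨T, -, Tf, Tc⟩ := finite_cover_balls_of_compact
    (isCompact_univ : IsCompact (univ : Set (closedBall (0 : ℂ) 1))) (e := 0.001) (by norm_num)
  let N := Tf.toFinset
  let ρ : closedBall (0 : ℂ) 1 → closedBall (0 : ℂ) 1 → ℝ := fun x i => max 0 (0.001 - dist x i)
  have ρ0 : ∀ x i, 0 ≤ ρ x i := fun x i => le_max_left _ _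
  have ρp : ∀ x i, 0 < ρ x i → dist x i < 0.001 := fun x i h => by
    rcases lt_max_iff.1 h with h | h
    · exact absurd h (lt_irrefl _)
    · linarith
  have ex : ∀ x, ∃ i ∈ N, 0 < ρ x i := fun x => by
    obtain ⟨i, hi, hx⟩ := mem_iUnion₂.1 (Tc (mem_univ x))
    exact ⟨i, Tf.mem_toFinset.2 hi, lt_max_of_lt_right (by linarith [mem_ball.1 hx])⟩
  have fn : ∀ i, ‖(f i : ℂ)‖ = 1 := fun i => by simpa using (f i).2
  have nr : ∀ x i j, 0 < ρ x i → 0 < ρ x j → ‖(f i : ℂ) - f j‖ ≤ 1.302 := by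
    intro x i j hi hj
    have h1 := (abs_le.1 (hf i j)).2
    have h2 := dist_triangle_left i j x
    rw [Subtype.dist_eq, dist_eq_norm] at h1
    linarith [ρp x i hi, ρp x j hj]
  let G : closedBall (0 : ℂ) 1 → ℂ := fun x => ∑ j ∈ N, (ρ x j : ℂ) * f j
  have Gc : Continuous G := by
    refine continuous_finset_sum _ fun j _ => ?_
    exact (continuous_ofReal.comp (continuous_const.max
      (continuous_const.sub (continuous_id.dist continuous_const)))).mul continuous_const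
  have G0 : ∀ x, G x ≠ 0 := fun x h => by
    obtain ⟨i, hi, hp⟩ := ex x
    have := comb N (ρ x) (fun j => (f j : ℂ)) (ρ0 x) fn (nr x) i hi hp
    change 0 < (G x).re * _ + (G x).im * _ at this
    rw [h] at this
    simp at this
  haveI : ContractibleSpace (closedBall (0 : ℂ) 1) :=
    (convex_closedBall (0 : ℂ) 1).contractibleSpace ⟨0, by simp⟩
  haveI : LocallyPathConnectedSpace (closedBall (0 : ℂ) 1) :=
    (convex_closedBall (0 : ℂ) 1).locallyPathConnectedSpace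
  let g : C(closedBall (0 : ℂ) 1, {z : ℂ // z ≠ 0}) := ⟨fun x => ⟨G x, G0 x⟩, Gc.subtype_mk _⟩
  obtain ⟨L, ⟨-, hL⟩, -⟩ := Complex.isCoveringMap_exp.existsUnique_continuousMap_lifts g
    ⟨0, by simp⟩ (log (G ⟨0, by simp⟩)) (Subtype.ext (exp_log (G0 _)))
  have hL' : ∀ x, exp (L x) = G x := fun x => congrArg Subtype.val (congrFun hL x)
  let c : ℝ → closedBall (0 : ℂ) 1 := fun θ => ⟨exp (θ * I), by simp [norm_exp_ofReal_mul_I]⟩
  have cc : Continuous c := Continuous.subtype_mk (by fun_prop) _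
  have per : c (Real.pi + Real.pi) = c 0 := Subtype.ext (by
    simp only [c]; push_cast
    rw [add_mul, exp_add, exp_pi_mul_I]; simp)
  let h : ℝ → ℝ := fun θ => (L (c θ)).im - (L (c (θ + Real.pi))).im
  have hc : Continuous h := by
    have := L.continuous
    simp only [h]; fun_prop
  have hπ : h Real.pi = -h 0 := by simp only [h]; rw [per, zero_add]; ring
  obtain ⟨θ, hθ⟩ : ∃ θ, h θ = 0 := by
    rcases le_total (h 0) 0 with e | e
    · exact intermediate_value_univ 0 Real.pi hc ⟨e, by linarith⟩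
    · exact intermediate_value_univ Real.pi 0 hc ⟨by linarith, e⟩
  set x := c θ
  set y := c (θ + Real.pi)
  have dxy : dist x y = 2 := by
    rw [Subtype.dist_eq, dist_eq_norm]
    simp only [x, y, c]; push_cast
    rw [add_mul, exp_add, exp_pi_mul_I]
    have : exp (θ * I) - exp (θ * I) * -1 = 2 * exp (θ * I) := by ring
    rw [this, norm_mul, norm_exp_ofReal_mul_I]; simp
  let w : ℂ := exp (-((L x).im : ℂ) * I)
  have wn : ‖w‖ = 1 := by
    have := norm_exp_ofReal_mul_I (-(L x).im)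
    simpa [w] using this
  have rot : ∀ z : closedBall (0 : ℂ) 1, (L z).im = (L x).im →
      ∑ j ∈ N, (ρ z j : ℂ) * (f j * w) = (Real.exp (L z).re : ℝ) := by
    intro z hz
    have : ∑ j ∈ N, (ρ z j : ℂ) * (f j * w) = G z * w := by
      simp only [G, Finset.sum_mul, mul_assoc]
    rw [this, ← hL', ofReal_exp, ← exp_add, ← hz]
    congr 1
    apply Complex.ext <;> simp
  have nw : ∀ i j, ‖(f i : ℂ) * w - f j * w‖ = ‖(f i : ℂ) - f j‖ := fun i j => by
    rw [← sub_mul, norm_mul, wn, mul_one]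
  obtain ⟨i, hi, hp⟩ := ex x
  obtain ⟨k, hk, hq⟩ := ex y
  refine final N (ρ x) (ρ y) (fun j => (f j : ℂ) * w) (ρ0 x) (ρ0 y)
    (fun j => by rw [norm_mul, fn, wn, mul_one]) (fun i j a b => by rw [nw]; exact nr x i j a b)
    (fun i j a b => by rw [nw]; exact nr y i j a b) (fun i j a b => ?_) i hi hp k hk hq _ _
    (Real.exp_pos _) (Real.exp_pos _) (rot x rfl) (rot y (by simp only [h] at hθ; linarith))
  rw [nw]
  have h1 := (abs_le.1 (hf i j)).1
  have h2 := dist_triangle4 x i j y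
  rw [Subtype.dist_eq (f i), dist_eq_norm] at h1
  rw [dist_comm j y] at h2
  linarith [ρp x i a, ρp y j b]

theorem result :
    (13 / 20 : ℝ) ≤ GromovHausdorff.ghDist (closedBall (0 : ℂ) 1) (sphere (0 : ℂ) 1) := by
  by_contra hlt
  push Not at hlt
  obtain ⟨Φ, Ψ, hΦ, hΨ, e⟩ :=
    GromovHausdorff.ghDist_eq_hausdorffDist (closedBall (0 : ℂ) 1) (sphere (0 : ℂ) 1)
  rw [e] at hlt
  have fin : hausdorffEDist (range Φ) (range Ψ) ≠ ⊤ :=
    hausdorffEDist_ne_top_of_nonempty_of_bounded (range_nonempty _) (range_nonempty _)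
      (isCompact_range hΦ.continuous).isBounded (isCompact_range hΨ.continuous).isBounded
  have : ∀ x, ∃ y, dist (Φ x) (Ψ y) < 13 / 20 := fun x => by
    obtain ⟨_, ⟨y, rfl⟩, hy⟩ := exists_dist_lt_of_hausdorffDist_lt (mem_range_self x) hlt fin
    exact ⟨y, hy⟩
  choose f hf using this
  refine no_map f fun x y => ?_
  rw [← hΦ.dist_eq, ← hΨ.dist_eq, abs_le]
  have h1 := dist_triangle4 (Φ x) (Ψ (f x)) (Ψ (f y)) (Φ y)
  have h2 := dist_triangle4 (Ψ (f x)) (Φ x) (Φ y) (Ψ (f y))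
  rw [dist_comm (Ψ (f y))] at h1
  rw [dist_comm (Ψ (f x)) (Φ x)] at h2
  constructor <;> linarith [hf x, hf y]

end Pool.Agent.Results.MP_431f4e_gt.DiscLower
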