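import Mathlib

namespace Pool.Agent.Results.MP_431f4e_gt.Upper
open Set Metric
open scoped RealInnerProductSpace

instance (m : ℕ) : CompactSpace (closedBall (0 : EuclideanSpace ℝ (Fin (m + 1))) 1) :=
  isCompact_iff_compactSpace.mp (isCompact_closedBall 0 1)
instance (m : ℕ) : Nonempty (closedBall (0 : EuclideanSpace ℝ (Fin (m + 1))) 1) := ⟨⟨0, by simp⟩⟩
instance (m : ℕ) : CompactSpace (sphere (0 : EuclideanSpace ℝ (Fin (m + 1))) 1) :=
  isCompact_iff_compactSpace.mp (isCompact_sphere 0 1)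
instance (m : ℕ) : Nonempty (sphere (0 : EuclideanSpace ℝ (Fin (m + 1))) 1) :=
  ⟨⟨EuclideanSpace.single 0 1, by simp⟩⟩

lemma le_of_sq_le_sq₀' {a b : ℝ} (h : a ^ 2 ≤ b ^ 2) (hb : 0 ≤ b) : a ≤ b :=
  abs_le_of_sq_le_sq' h hb |>.2

lemma gen {E : Type*} [NormedAddCommGroup E] [InnerProductSpace ℝ E]
    [CompactSpace (closedBall (0 : E) 1)] [Nonempty (closedBall (0 : E) 1)]
    [CompactSpace (sphere (0 : E) 1)] [Nonempty (sphere (0 : E) 1)] {ι : Type*}
    (v : ι → E) (δ : ℝ) (hδ : 3 / 2 ≤ δ) (h1 : ∀ i, ‖v i‖ = 1) (h2 : ∀ i j, ‖v i - v j‖ ≤ δ)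
    (h3 : ∀ x : E, ∃ i, 0 ≤ ⟪v i, x⟫) :
    GromovHausdorff.ghDist (closedBall (0 : E) 1) (sphere (0 : E) 1) ≤ δ / 2 := by
  classical
  choose k hk using h3
  have hn : ∀ x : E, 1 / 2 ≤ ‖x‖ → ‖‖x‖⁻¹ • x‖ = 1 := fun x hx => by
    rw [norm_smul, norm_inv, norm_norm, inv_mul_cancel₀ (by linarith)]
  let φ : E → E := fun x => if 1 / 2 ≤ ‖x‖ then ‖x‖⁻¹ • x else v (k x)
  have φn : ∀ x, ‖φ x‖ = 1 := fun x => by
    simp only [φ]; split_ifs with h
    · exact hn x h
    · exact h1 _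
  have φo : ∀ x, 1 / 2 ≤ ‖x‖ → x = ‖x‖ • φ x := fun x h => by
    simp only [φ, if_pos h]; rw [smul_smul, mul_inv_cancel₀ (by linarith), one_smul]
  have mixed : ∀ x y : E, ¬ 1 / 2 ≤ ‖x‖ → 1 / 2 ≤ ‖y‖ → ‖φ x - φ y‖ - ‖x - y‖ ≤ δ := by
    intro x y hx hy
    have e : φ x = v (k x) := by simp only [φ, if_neg hx]
    have a1 := norm_sub_sq_real (φ x) (φ y)
    rw [φn, φn] at a1
    have a2 : ⟪φ x, x - y⟫ ≤ ‖x - y‖ := by
      have := real_inner_le_norm (φ x) (x - y)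
      rwa [φn, one_mul] at this
    have a3 : ⟪φ x, x - y⟫ = ⟪φ x, x⟫ - ‖y‖ * ⟪φ x, φ y⟫ := by
      rw [inner_sub_right, ← real_inner_smul_right, ← φo y hy]
    have a4 : 0 ≤ ⟪φ x, x⟫ := by rw [e]; exact hk x
    have a5 : ‖φ x - φ y‖ ≤ 2 := by
      have := norm_sub_le (φ x) (φ y)
      rw [φn, φn] at this; linarith
    have a6 := norm_nonneg (x - y)
    by_contra hc
    have a7 : ⟪φ x, φ y⟫ ≤ 0 := by nlinarith
    have a8 : -(1 / 2) * ⟪φ x, φ y⟫ ≤ ‖x - y‖ := by nlinarith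
    nlinarith
  have key : ∀ x y : E, ‖x‖ ≤ 1 → ‖y‖ ≤ 1 → |‖x - y‖ - ‖φ x - φ y‖| ≤ δ := by
    intro x y hx hy
    have n0 := norm_nonneg (φ x - φ y)
    have n1 := norm_nonneg (x - y)
    have n2 := norm_sub_le x y
    rw [abs_le]
    by_cases a : 1 / 2 ≤ ‖x‖ <;> by_cases b : 1 / 2 ≤ ‖y‖
    · have a1 := norm_sub_sq_real (φ x) (φ y)
      rw [φn, φn] at a1
      have a2 := norm_sub_sq_real x y
      have a3 : ⟪x, y⟫ = ‖x‖ * (‖y‖ * ⟪φ x, φ y⟫) := by
        rw [← real_inner_smul_right, ← real_inner_smul_left, ← φo x a, ← φo y b]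
      have a5 : ‖φ x - φ y‖ ≤ 2 := by
        have := norm_sub_le (φ x) (φ y)
        rw [φn, φn] at this; linarith
      have a6 : ‖x - y‖ ^ 2 = (‖x‖ - ‖y‖) ^ 2 + ‖x‖ * ‖y‖ * ‖φ x - φ y‖ ^ 2 := by
        rw [a2, a3, a1]; ring
      have p1 : 1 / 4 ≤ ‖x‖ * ‖y‖ := by nlinarith
      have p2 : ‖x‖ * ‖y‖ ≤ 1 := by nlinarith
      have p3 : (‖x‖ - ‖y‖) ^ 2 ≤ 1 := by nlinarith
      have q1 : ‖φ x - φ y‖ / 2 ≤ ‖x - y‖ := by
        refine le_of_sq_le_sq₀' ?_ n1
        nlinarith [sq_nonneg (‖x‖ - ‖y‖), mul_le_mul_of_nonneg_right p1 (sq_nonneg ‖φ x - φ y‖)]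
      have q2 : ‖x - y‖ ≤ ‖φ x - φ y‖ + 1 := by
        refine le_of_sq_le_sq₀' ?_ (by linarith)
        nlinarith [mul_le_mul_of_nonneg_right p2 (sq_nonneg ‖φ x - φ y‖)]
      constructor <;> linarith
    · have := mixed y x b a
      rw [norm_sub_rev (φ y), norm_sub_rev y] at this
      constructor <;> linarith
    · have := mixed x y a b
      constructor <;> linarith
    · have : ‖φ x - φ y‖ ≤ δ := by simp only [φ, if_neg a, if_neg b]; exact h2 _ _
      constructor <;> linarith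
  have := GromovHausdorff.ghDist_le_of_approx_subsets
    (s := (univ : Set (closedBall (0 : E) 1))) (ε₁ := 0) (ε₂ := δ) (ε₃ := 0)
    (fun x => (⟨φ x.1.1, by simpa using φn _⟩ : sphere (0 : E) 1))
    (fun x => ⟨x, mem_univ _, by simp⟩)
    (fun y => ⟨⟨⟨y.1, sphere_subset_closedBall y.2⟩, mem_univ _⟩, by
      have hy : ‖y.1‖ = 1 := by simpa using y.2
      have := φo y.1 (by rw [hy]; norm_num)
      rw [hy, one_smul] at this
      rw [Subtype.dist_eq]; simp only; rw [← this]; simp⟩)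
    (fun x y => by
      rw [Subtype.dist_eq, Subtype.dist_eq, Subtype.dist_eq, dist_eq_norm, dist_eq_norm]
      exact key _ _ (mem_closedBall_zero_iff.1 x.1.2) (mem_closedBall_zero_iff.1 y.1.2))
  linarith

theorem result (m : ℕ) :
    GromovHausdorff.ghDist (closedBall (0 : EuclideanSpace ℝ (Fin (m + 1))) 1)
      (sphere (0 : EuclideanSpace ℝ (Fin (m + 1))) 1) ≤
        max (√(2 * (m + 2) / (m + 1))) (3 / 2) / 2 := by
  have hn : (0 : ℝ) < m + 1 := by positivity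
  set s : ℝ := √(1 / (m + 1)) with hs
  set α : ℝ := √((m + 2) / (m + 1)) with hα
  have s2 : s ^ 2 = 1 / (m + 1) := Real.sq_sqrt (by positivity)
  have α2 : α ^ 2 = (m + 2) / (m + 1) := Real.sq_sqrt (by positivity)
  set β : ℝ := (s - α) / (m + 1) with hβ
  have hβ' : (m + 1) * β = s - α := by rw [hβ]; field_simp
  let o : EuclideanSpace ℝ (Fin (m + 1)) := WithLp.toLp 2 fun _ => 1
  let e : Fin (m + 1) → EuclideanSpace ℝ (Fin (m + 1)) := fun i => EuclideanSpace.single i 1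
  have oo : ⟪o, o⟫ = m + 1 := by simp [o, PiLp.inner_apply, -inner_self_eq_norm_sq_to_K]
  have eo : ∀ i, ⟪e i, o⟫ = 1 := fun i => by simp [e, o, EuclideanSpace.inner_single_left]
  have oe : ∀ i, ⟪o, e i⟫ = 1 := fun i => by rw [real_inner_comm]; exact eo i
  have ee : ∀ i j, ⟪e i, e j⟫ = if i = j then 1 else 0 := fun i j => by
    simp [e, EuclideanSpace.inner_single_left, Pi.single_apply, -inner_self_eq_norm_sq_to_K]
  have so : ∑ i, e i = o := by
    ext j; simp [e, o, Pi.single_apply]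
  let v : Option (Fin (m + 1)) → EuclideanSpace ℝ (Fin (m + 1)) :=
    fun i => i.elim ((-s) • o) fun i => α • e i + β • o
  have t1 : s ^ 2 * (m + 1) = 1 := by rw [s2]; field_simp
  have t2 : α ^ 2 = 1 + s ^ 2 := by rw [α2, s2]; field_simp; ring
  have t3 : 2 * α * β + β ^ 2 * (m + 1) = -s ^ 2 := by
    have : (2 * α * β + β ^ 2 * (m + 1)) * (m + 1) = -s ^ 2 * (m + 1) := by
      have : (2 * α * β + β ^ 2 * (m + 1)) * (m + 1) =
          2 * α * ((m + 1) * β) + ((m + 1) * β) ^ 2 := by ring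
      rw [this, hβ']; linarith
    exact mul_right_cancel₀ hn.ne' this
  have ip : ∀ i j, ⟪v i, v j⟫ = if i = j then 1 else -s ^ 2 := by
    rintro (_ | i) (_ | j) <;>
      simp only [v, Option.elim, inner_add_left, inner_add_right, real_inner_smul_left,
        real_inner_smul_right, oo, eo, oe, ee, reduceCtorEq, if_true, if_false, Option.some.injEq]
    · linarith
    · linear_combination (-s) * hβ'
    · linear_combination (-s) * hβ'
    · split_ifs <;> linarith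
  have h1 : ∀ i, ‖v i‖ = 1 := fun i => by
    have := ip i i
    rw [if_pos rfl, real_inner_self_eq_norm_sq] at this
    nlinarith [norm_nonneg (v i)]
  refine gen v _ (le_max_right _ _) h1 (fun i j => le_max_of_le_left ?_) fun x => ?_
  · apply Real.le_sqrt_of_sq_le
    rw [norm_sub_sq_real, h1, h1, ip, mul_div_assoc, ← α2]
    split_ifs <;> nlinarith [sq_nonneg s]
  · by_contra hc
    push Not at hc
    have h0 : ∑ i, v i = 0 := by
      rw [Fintype.sum_option]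
      simp only [v, Option.elim, Finset.sum_add_distrib, ← Finset.smul_sum, so, Finset.sum_const,
        Finset.card_univ, Fintype.card_fin]
      rw [← Nat.cast_smul_eq_nsmul ℝ, smul_smul, ← add_smul, ← add_smul]
      push_cast
      rw [show -s + (α + β * (m + 1)) = 0 by linarith, zero_smul]
    have h4 : ∑ i, ⟪v i, x⟫ < 0 := Finset.sum_neg (fun i _ => hc i) Finset.univ_nonempty
    rw [← sum_inner, h0, inner_zero_left] at h4
    exact lt_irrefl _ h4

end Pool.Agent.Results.MP_431f4e_gt.Upper
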